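import Pool.Agent.K7.H98.MDG

namespace Pool.Agent.Results.MP_732f2a_co.AtLeastFour

open Pool.Agent.K7.H98.MD

/-- The multiset dimension of the strong product of two paths with at least two vertices each is
at least `4`. -/
theorem result (n m : ℕ) (hn : 2 ≤ n) (hm : 2 ≤ m) : 4 ≤ mdim n m :=
  four_le_mdim hn hm

end Pool.Agent.Results.MP_732f2a_co.AtLeastFour
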