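import Pool.Agent.K7.H98.MDG

namespace Pool.Agent.Results.MP_732f2a_co.NearSquareGrids

open Pool.Agent.K7.H98.MD

/-- The multiset dimension of the strong product of `P_n` and `P_m` is exactly `4` whenever
`5 ≤ n ≤ m ≤ (3 n - 3) / 2`. -/
theorem result (n m : ℕ) (hn : 5 ≤ n) (hnm : n ≤ m) (hm : 2 * m + 3 ≤ 3 * n) :
    mdim n m = 4 :=
  le_antisymm (mdim_le_four hn hnm hm) (four_le_mdim (by omega) (by omega))

end Pool.Agent.Results.MP_732f2a_co.NearSquareGrids
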